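import Mathlib
import Pool.Agent.TH278.DX.Defs3
set_option autoImplicit false

namespace Pool.Agent.TH341.J5172

open scoped ENNReal ComplexConjugate

/-- finite-dimensional duality -/
theorem dual {X K : Type} [Fintype X] [Fintype K] (m : X → K → ℂ) (r : ℝ)
    (h : ∀ z : K → ℂ, ∑ x, ‖∑ k, m x k * z k‖ ^ 2 ≤ r ^ 2 * ∑ k, ‖z k‖ ^ 2) (v : X → ℂ) :
    ∑ k, ‖∑ x, m x k * v x‖ ^ 2 ≤ r ^ 2 * ∑ x, ‖v x‖ ^ 2 := by
  set w : K → ℂ := fun k => ∑ x, m x k * v x with hw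
  have hWnn : 0 ≤ ∑ k, ‖w k‖ ^ 2 := Finset.sum_nonneg fun _ _ => by positivity
  have hVnn : 0 ≤ ∑ x, ‖v x‖ ^ 2 := Finset.sum_nonneg fun _ _ => by positivity
  have h1 : ((∑ k, ‖w k‖ ^ 2 : ℝ) : ℂ) = ∑ x, v x * ∑ k, m x k * conj (w k) := by
    have e1 : ((∑ k, ‖w k‖ ^ 2 : ℝ) : ℂ) = ∑ k, w k * conj (w k) := by
      push_cast
      refine Finset.sum_congr rfl fun k _ => ?_
      rw [Complex.mul_conj, Complex.normSq_eq_norm_sq]
      push_cast
      rfl
    rw [e1]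
    have e2 : ∀ k, w k * conj (w k) = ∑ x, v x * (m x k * conj (w k)) := by
      intro k
      conv_lhs => rw [hw]
      simp only
      rw [Finset.sum_mul]
      refine Finset.sum_congr rfl fun x _ => ?_
      ring
    rw [Finset.sum_congr rfl fun k _ => e2 k, Finset.sum_comm]
    refine Finset.sum_congr rfl fun x _ => ?_
    rw [Finset.mul_sum]
  have h2 : (∑ k, ‖w k‖ ^ 2) ^ 2 ≤ (∑ x, ‖v x‖ ^ 2) * (r ^ 2 * ∑ k, ‖w k‖ ^ 2) := by
    have e1 : (∑ k, ‖w k‖ ^ 2) ≤ ∑ x, ‖v x‖ * ‖∑ k, m x k * conj (w k)‖ := by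
      have : (∑ k, ‖w k‖ ^ 2) = ‖((∑ k, ‖w k‖ ^ 2 : ℝ) : ℂ)‖ := by
        rw [Complex.norm_real, Real.norm_of_nonneg hWnn]
      rw [this, h1]
      refine (norm_sum_le _ _).trans (le_of_eq ?_)
      refine Finset.sum_congr rfl fun x _ => ?_
      rw [norm_mul]
    have e2 := Finset.sum_mul_sq_le_sq_mul_sq (Finset.univ : Finset X) (fun x => ‖v x‖)
      (fun x => ‖∑ k, m x k * conj (w k)‖)
    have e3 := h fun k => conj (w k)
    simp only [RCLike.norm_conj] at e3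
    calc (∑ k, ‖w k‖ ^ 2) ^ 2 ≤ (∑ x, ‖v x‖ * ‖∑ k, m x k * conj (w k)‖) ^ 2 :=
          pow_le_pow_left₀ hWnn e1 2
      _ ≤ _ := e2
      _ ≤ _ := mul_le_mul_of_nonneg_left e3 hVnn
  rcases hWnn.lt_or_eq with hlt | heq
  · have : (∑ k, ‖w k‖ ^ 2) * (∑ k, ‖w k‖ ^ 2) ≤ (r ^ 2 * ∑ x, ‖v x‖ ^ 2) * (∑ k, ‖w k‖ ^ 2) := by
      nlinarith [h2]
    exact le_of_mul_le_mul_right this hlt
  · rw [← heq]; positivity

/-- at most one nonzero term -/
theorem atmost {ι : Type} [Fintype ι] (f : ι → ℂ) (h : ∀ i j, f i ≠ 0 → f j ≠ 0 → i = j) :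
    ‖∑ i, f i‖ ^ 2 ≤ ∑ i, ‖f i‖ ^ 2 := by
  classical
  by_cases hf : ∃ i, f i ≠ 0
  · obtain ⟨i, hi⟩ := hf
    have : ∑ j, f j = f i := by
      refine Finset.sum_eq_single i (fun j _ hj => ?_) (fun h => absurd (Finset.mem_univ i) h)
      by_contra hc
      exact hj (h j i hc hi)
    rw [this]
    exact Finset.single_le_sum (f := fun i => ‖f i‖ ^ 2) (fun _ _ => by positivity)
      (Finset.mem_univ i)
  · push Not at hf
    simp [hf]

/-- The operator with coefficients `b` and generators `s`. -/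
def Op {G ι K : Type} [Group G] [Fintype ι] [Fintype K] (s : ι → G) (b : ι → K → K → ℂ)
    (φ : G × K → ℂ) : G × K → ℂ := fun x => ∑ i, ∑ l, b i x.2 l * φ ((s i)⁻¹ * x.1, l)

/-- Squared norm. -/
noncomputable def N {G K : Type} [Fintype K] (φ : G × K → ℂ) : ℝ≥0∞ :=
  ∑' w, ENNReal.ofReal (∑ k, ‖φ (w, k)‖ ^ 2)

theorem haag {G ι K : Type} [Group G] [Fintype ι] [Fintype K] (s : ι → G) (b : ι → K → K → ℂ)
    (A : ι → G → Prop) (h1 : ∀ w i j, A i w → A j w → i = j)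
    (h2 : ∀ u i j, ¬ A i (s i * u) → ¬ A j (s j * u) → i = j) (r : ℝ)
    (b1 : ∀ z : K → ℂ, ∑ i, ∑ k, ‖∑ l, b i k l * z l‖ ^ 2 ≤ r ^ 2 * ∑ l, ‖z l‖ ^ 2)
    (b2 : ∀ v : ι → K → ℂ, ∑ k, ‖∑ i, ∑ l, b i k l * v i l‖ ^ 2 ≤
      r ^ 2 * ∑ i, ∑ l, ‖v i l‖ ^ 2)
    (φ : G × K → ℂ) : N (Op s b φ) ≤ ENNReal.ofReal ((2 * r) ^ 2) * N φ := by
  classical
  -- the first part
  have hP : ∑' w, ENNReal.ofReal (∑ i, ∑ k, ‖∑ l, b i k l * φ ((s i)⁻¹ * w, l)‖ ^ 2) ≤
      ENNReal.ofReal (r ^ 2) * N φ := by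
    have e1 : ∀ w, ENNReal.ofReal (∑ i, ∑ k, ‖∑ l, b i k l * φ ((s i)⁻¹ * w, l)‖ ^ 2) =
        ∑ i, ENNReal.ofReal (∑ k, ‖∑ l, b i k l * φ ((s i)⁻¹ * w, l)‖ ^ 2) := by
      intro w
      exact ENNReal.ofReal_sum_of_nonneg fun _ _ => Finset.sum_nonneg fun _ _ => by positivity
    simp_rw [e1]
    rw [Summable.tsum_finsetSum fun _ _ => ENNReal.summable]
    have e2 : ∀ i, ∑' w, ENNReal.ofReal (∑ k, ‖∑ l, b i k l * φ ((s i)⁻¹ * w, l)‖ ^ 2) =
        ∑' u, ENNReal.ofReal (∑ k, ‖∑ l, b i k l * φ (u, l)‖ ^ 2) := by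
      intro i
      exact (Equiv.mulLeft (s i)⁻¹).tsum_eq
        (fun u => ENNReal.ofReal (∑ k, ‖∑ l, b i k l * φ (u, l)‖ ^ 2))
    simp_rw [e2]
    rw [← Summable.tsum_finsetSum fun _ _ => ENNReal.summable]
    rw [N, ← ENNReal.tsum_mul_left]
    refine ENNReal.tsum_le_tsum fun u => ?_
    rw [← ENNReal.ofReal_sum_of_nonneg fun _ _ => Finset.sum_nonneg fun _ _ => by positivity,
      ← ENNReal.ofReal_mul (by positivity)]
    exact ENNReal.ofReal_le_ofReal (b1 fun l => φ (u, l))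
  -- the second part
  have hR : ∑' w, ENNReal.ofReal (r ^ 2 * ∑ i, ∑ l,
      ‖(if A i w then 0 else φ ((s i)⁻¹ * w, l))‖ ^ 2) ≤ ENNReal.ofReal (r ^ 2) * N φ := by
    have e1 : ∀ w, ENNReal.ofReal (r ^ 2 * ∑ i, ∑ l,
        ‖(if A i w then 0 else φ ((s i)⁻¹ * w, l))‖ ^ 2) =
        ENNReal.ofReal (r ^ 2) * ∑ i, ENNReal.ofReal (∑ l,
        ‖(if A i w then 0 else φ ((s i)⁻¹ * w, l))‖ ^ 2) := by
      intro w
      rw [ENNReal.ofReal_mul (by positivity), ENNReal.ofReal_sum_of_nonneg fun _ _ =>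
        Finset.sum_nonneg fun _ _ => by positivity]
    simp_rw [e1]
    rw [ENNReal.tsum_mul_left]
    refine mul_le_mul_right ?_ _
    rw [Summable.tsum_finsetSum fun _ _ => ENNReal.summable]
    have e2 : ∀ i, ∑' w, ENNReal.ofReal (∑ l,
        ‖(if A i w then 0 else φ ((s i)⁻¹ * w, l))‖ ^ 2) =
        ∑' u, ENNReal.ofReal (∑ l, ‖(if A i (s i * u) then 0 else φ (u, l))‖ ^ 2) := by
      intro i
      rw [← (Equiv.mulLeft (s i)).tsum_eq]
      refine tsum_congr fun u => ?_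
      simp [Equiv.coe_mulLeft]
    simp_rw [e2]
    rw [← Summable.tsum_finsetSum fun _ _ => ENNReal.summable, N]
    refine ENNReal.tsum_le_tsum fun u => ?_
    by_cases hu : ∃ i, ¬ A i (s i * u)
    · obtain ⟨i, hi⟩ := hu
      rw [Finset.sum_eq_single i]
      · simp [hi]
      · intro j _ hj
        have : A j (s j * u) := by
          by_contra hc
          exact hj (h2 u j i hc hi)
        simp [this]
      · intro h; exact absurd (Finset.mem_univ i) h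
    · push Not at hu
      simp [hu]
  -- combination
  have hpt : ∀ w, ENNReal.ofReal (∑ k, ‖Op s b φ (w, k)‖ ^ 2) ≤
      2 * ENNReal.ofReal (∑ i, ∑ k, ‖∑ l, b i k l * φ ((s i)⁻¹ * w, l)‖ ^ 2) +
      2 * ENNReal.ofReal (r ^ 2 * ∑ i, ∑ l,
        ‖(if A i w then 0 else φ ((s i)⁻¹ * w, l))‖ ^ 2) := by
    intro w
    have f1 : ∀ k, Op s b φ (w, k) =
        (∑ i, if A i w then ∑ l, b i k l * φ ((s i)⁻¹ * w, l) else 0) +
        ∑ i, ∑ l, b i k l * (if A i w then 0 else φ ((s i)⁻¹ * w, l)) := by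
      intro k
      rw [Op, ← Finset.sum_add_distrib]
      refine Finset.sum_congr rfl fun i _ => ?_
      by_cases hA : A i w <;> simp [hA]
    have f2 : ∀ k, ‖Op s b φ (w, k)‖ ^ 2 ≤
        2 * ‖∑ i, if A i w then ∑ l, b i k l * φ ((s i)⁻¹ * w, l) else 0‖ ^ 2 +
        2 * ‖∑ i, ∑ l, b i k l * (if A i w then 0 else φ ((s i)⁻¹ * w, l))‖ ^ 2 := by
      intro k
      rw [f1 k]
      have := norm_add_le (∑ i, if A i w then ∑ l, b i k l * φ ((s i)⁻¹ * w, l) else 0)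
        (∑ i, ∑ l, b i k l * (if A i w then 0 else φ ((s i)⁻¹ * w, l)))
      have h0 := norm_nonneg ((∑ i, if A i w then ∑ l, b i k l * φ ((s i)⁻¹ * w, l) else 0) +
        ∑ i, ∑ l, b i k l * (if A i w then 0 else φ ((s i)⁻¹ * w, l)))
      nlinarith [sq_nonneg (‖∑ i, if A i w then ∑ l, b i k l * φ ((s i)⁻¹ * w, l) else 0‖ -
        ‖∑ i, ∑ l, b i k l * (if A i w then 0 else φ ((s i)⁻¹ * w, l))‖)]
    have f3 : ∀ k, ‖∑ i, if A i w then ∑ l, b i k l * φ ((s i)⁻¹ * w, l) else 0‖ ^ 2 ≤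
        ∑ i, ‖∑ l, b i k l * φ ((s i)⁻¹ * w, l)‖ ^ 2 := by
      intro k
      refine (atmost _ ?_).trans ?_
      · intro i j hi hj
        have hi' : A i w := by by_contra hc; simp [hc] at hi
        have hj' : A j w := by by_contra hc; simp [hc] at hj
        exact h1 w i j hi' hj'
      · refine Finset.sum_le_sum fun i _ => ?_
        by_cases hA : A i w
        · simp [hA]
        · rw [if_neg hA, norm_zero, zero_pow two_ne_zero]
          positivity
    have f4 := b2 fun i l => if A i w then 0 else φ ((s i)⁻¹ * w, l)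
    have f5 : ∑ k, ‖Op s b φ (w, k)‖ ^ 2 ≤
        2 * (∑ i, ∑ k, ‖∑ l, b i k l * φ ((s i)⁻¹ * w, l)‖ ^ 2) +
        2 * (r ^ 2 * ∑ i, ∑ l, ‖(if A i w then 0 else φ ((s i)⁻¹ * w, l))‖ ^ 2) := by
      calc ∑ k, ‖Op s b φ (w, k)‖ ^ 2 ≤ ∑ k,
          (2 * (∑ i, ‖∑ l, b i k l * φ ((s i)⁻¹ * w, l)‖ ^ 2) +
          2 * ‖∑ i, ∑ l, b i k l * (if A i w then 0 else φ ((s i)⁻¹ * w, l))‖ ^ 2) := by
            refine Finset.sum_le_sum fun k _ => ?_
            have := f2 k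
            have := f3 k
            linarith
        _ = 2 * (∑ i, ∑ k, ‖∑ l, b i k l * φ ((s i)⁻¹ * w, l)‖ ^ 2) +
          2 * (∑ k, ‖∑ i, ∑ l, b i k l * (if A i w then 0 else φ ((s i)⁻¹ * w, l))‖ ^ 2) := by
            rw [Finset.sum_add_distrib, ← Finset.mul_sum, ← Finset.mul_sum, Finset.sum_comm]
        _ ≤ _ := by linarith
    refine (ENNReal.ofReal_le_ofReal f5).trans ?_
    rw [ENNReal.ofReal_add (by positivity) (by positivity), ENNReal.ofReal_mul (by norm_num),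
      ENNReal.ofReal_mul (p := 2) (by norm_num)]
    simp
  calc N (Op s b φ) ≤ ∑' w, (2 * ENNReal.ofReal (∑ i, ∑ k,
        ‖∑ l, b i k l * φ ((s i)⁻¹ * w, l)‖ ^ 2) +
      2 * ENNReal.ofReal (r ^ 2 * ∑ i, ∑ l,
        ‖(if A i w then 0 else φ ((s i)⁻¹ * w, l))‖ ^ 2)) := ENNReal.tsum_le_tsum hpt
    _ = 2 * (∑' w, ENNReal.ofReal (∑ i, ∑ k, ‖∑ l, b i k l * φ ((s i)⁻¹ * w, l)‖ ^ 2)) +
      2 * (∑' w, ENNReal.ofReal (r ^ 2 * ∑ i, ∑ l,
        ‖(if A i w then 0 else φ ((s i)⁻¹ * w, l))‖ ^ 2)) := by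
        rw [ENNReal.tsum_add, ENNReal.tsum_mul_left, ENNReal.tsum_mul_left]
    _ ≤ 2 * (ENNReal.ofReal (r ^ 2) * N φ) + 2 * (ENNReal.ofReal (r ^ 2) * N φ) := by
        gcongr
    _ = ENNReal.ofReal ((2 * r) ^ 2) * N φ := by
        have : (2 * r) ^ 2 = 4 * r ^ 2 := by ring
        rw [this, ENNReal.ofReal_mul (by norm_num)]
        have h4 : ENNReal.ofReal 4 = 4 := by simp
        rw [h4]
        ring

theorem head_mul {ι : Type} [DecidableEq ι] (i : ι) (c : Bool) (u : FreeGroup ι)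
    (h : ¬ ((FreeGroup.mk [(i, c)] * u).toWord.head? = some (i, c))) :
    u.toWord.head? = some (i, !c) := by
  have e : (FreeGroup.mk [(i, c)] * u).toWord = FreeGroup.reduce ((i, c) :: u.toWord) := by
    conv_lhs => rw [← FreeGroup.mk_toWord (x := u)]
    rw [FreeGroup.mul_mk, FreeGroup.toWord_mk]
    rfl
  rw [e, FreeGroup.reduce.cons, FreeGroup.reduce_toWord] at h
  cases hw : u.toWord with
  | nil => simp [hw] at h
  | cons hd tl =>
    rw [hw] at h
    by_cases hc : i = hd.1 ∧ c = !hd.2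
    · obtain ⟨hd1, hd2⟩ := hd
      obtain ⟨hc1, hc2⟩ := hc
      simp only at hc1 hc2
      subst hc1
      simp [hc2]
    · exfalso
      apply h
      have : (if (i, c).1 = hd.1 ∧ (i, c).2 = !hd.2 then tl else (i, c) :: hd :: tl) =
          (i, c) :: hd :: tl := if_neg hc
      show List.head? (if (i, c).1 = hd.1 ∧ (i, c).2 = !hd.2 then tl else (i, c) :: hd :: tl) = _
      rw [this]
      rfl

/-- The Haagerup inequality in the free group, for the generators and their inverses. -/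
theorem haagF {ι K : Type} [Fintype ι] [DecidableEq ι] [Fintype K] (c : Bool)
    (b : ι → K → K → ℂ) (r : ℝ)
    (b1 : ∀ z : K → ℂ, ∑ i, ∑ k, ‖∑ l, b i k l * z l‖ ^ 2 ≤ r ^ 2 * ∑ l, ‖z l‖ ^ 2)
    (b2 : ∀ v : ι → K → ℂ, ∑ k, ‖∑ i, ∑ l, b i k l * v i l‖ ^ 2 ≤
      r ^ 2 * ∑ i, ∑ l, ‖v i l‖ ^ 2)
    (φ : FreeGroup ι × K → ℂ) :
    N (Op (fun i => FreeGroup.mk [(i, c)]) b φ) ≤ ENNReal.ofReal ((2 * r) ^ 2) * N φ := by
  refine haag _ b (fun i w => w.toWord.head? = some (i, c)) ?_ ?_ r b1 b2 φ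
  · intro w i j hi hj
    have := hi.symm.trans hj
    simpa using this
  · intro u i j hi hj
    have h1 := head_mul i c u hi
    have h2 := head_mul j c u hj
    have := h1.symm.trans h2
    simpa using this

theorem local_op {ι K : Type} [Fintype ι] [DecidableEq ι] [Fintype K] (c : Bool)
    (b : ι → K → K → ℂ) (n : ℕ) (f g : FreeGroup ι × K → ℂ)
    (h : ∀ w k, FreeGroup.norm w ≤ n + 1 → f (w, k) = g (w, k)) :
    ∀ w k, FreeGroup.norm w ≤ n → Op (fun i => FreeGroup.mk [(i, c)]) b f (w, k) =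
      Op (fun i => FreeGroup.mk [(i, c)]) b g (w, k) := by
  intro w k hw
  simp only [Op]
  refine Finset.sum_congr rfl fun i _ => Finset.sum_congr rfl fun l _ => ?_
  rw [h]
  refine (FreeGroup.norm_mul_le _ _).trans ?_
  have : FreeGroup.norm (FreeGroup.mk [(i, c)])⁻¹ ≤ 1 := by
    rw [FreeGroup.norm_inv_eq]
    exact FreeGroup.norm_mk_le
  omega

/-- The two-step operator. -/
def D {G ι K : Type} [Group G] [Fintype ι] [Fintype K] (s t : ι → G) (b c : ι → K → K → ℂ)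
    (φ : G × K → ℂ) : G × K → ℂ := Op t c (Op s b φ)

theorem local_D {ι K : Type} [Fintype ι] [DecidableEq ι] [Fintype K]
    (b c : ι → K → K → ℂ) (p : ℕ) : ∀ (n : ℕ) (f g : FreeGroup ι × K → ℂ)
    (_ : ∀ w k, FreeGroup.norm w ≤ n + 2 * p → f (w, k) = g (w, k)),
    ∀ w k, FreeGroup.norm w ≤ n →
      (D (fun i => FreeGroup.mk [(i, true)]) (fun i => FreeGroup.mk [(i, false)]) b c)^[p] f (w, k) =
      (D (fun i => FreeGroup.mk [(i, true)]) (fun i => FreeGroup.mk [(i, false)]) b c)^[p] g (w, k) := by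
  induction p with
  | zero => intro n f g h w k hw; exact h w k (by omega)
  | succ p ih =>
    intro n f g h w k hw
    rw [Function.iterate_succ_apply, Function.iterate_succ_apply]
    refine ih n _ _ ?_ w k hw
    intro w k hw
    refine local_op false c (n + 2 * p) _ _ ?_ w k hw
    intro w k hw
    refine local_op true b (n + 2 * p + 1) _ _ ?_ w k hw
    intro w k hw
    exact h w k (by omega)

/-- Pull-back along the orbit map. -/
def T {ι K Q : Type} [Group Q] (q : ι → Q) (x0 : Q) (f : Q × K → ℂ) : FreeGroup ι × K → ℂ :=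
  fun w => f (FreeGroup.lift q w.1 * x0, w.2)

theorem T_op {ι K Q : Type} [Fintype ι] [Fintype K] [Group Q] (q : ι → Q) (x0 : Q)
    (s : ι → FreeGroup ι) (t : ι → Q) (hst : ∀ i, FreeGroup.lift q (s i) = t i)
    (b : ι → K → K → ℂ) (f : Q × K → ℂ) : T q x0 (Op t b f) = Op s b (T q x0 f) := by
  funext ⟨w, k⟩
  simp only [T, Op]
  refine Finset.sum_congr rfl fun i _ => Finset.sum_congr rfl fun l _ => ?_
  rw [map_mul, map_inv, hst, mul_assoc]

theorem T_D {ι K Q : Type} [Fintype ι] [Fintype K] [Group Q] (q : ι → Q) (x0 : Q)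
    (b c : ι → K → K → ℂ) (p : ℕ) : ∀ f : Q × K → ℂ,
    T q x0 ((D q (fun i => (q i)⁻¹) b c)^[p] f) =
      (D (fun i => FreeGroup.mk [(i, true)]) (fun i => FreeGroup.mk [(i, false)]) b c)^[p]
        (T q x0 f) := by
  induction p with
  | zero => intro f; rfl
  | succ p ih =>
    intro f
    rw [Function.iterate_succ_apply, Function.iterate_succ_apply, ih]
    congr 1
    rw [D, D, T_op q x0 (fun i => FreeGroup.mk [(i, false)]) (fun i => (q i)⁻¹) (by simp),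
      T_op q x0 (fun i => FreeGroup.mk [(i, true)]) q (by simp)]

theorem N_D {ι K : Type} [Fintype ι] [DecidableEq ι] [Fintype K]
    (b c : ι → K → K → ℂ) (r : ℝ)
    (b1 : ∀ z : K → ℂ, ∑ i, ∑ k, ‖∑ l, b i k l * z l‖ ^ 2 ≤ r ^ 2 * ∑ l, ‖z l‖ ^ 2)
    (b2 : ∀ v : ι → K → ℂ, ∑ k, ‖∑ i, ∑ l, b i k l * v i l‖ ^ 2 ≤
      r ^ 2 * ∑ i, ∑ l, ‖v i l‖ ^ 2)
    (c1 : ∀ z : K → ℂ, ∑ i, ∑ k, ‖∑ l, c i k l * z l‖ ^ 2 ≤ r ^ 2 * ∑ l, ‖z l‖ ^ 2)
    (c2 : ∀ v : ι → K → ℂ, ∑ k, ‖∑ i, ∑ l, c i k l * v i l‖ ^ 2 ≤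
      r ^ 2 * ∑ i, ∑ l, ‖v i l‖ ^ 2) (p : ℕ) : ∀ φ : FreeGroup ι × K → ℂ,
    N ((D (fun i => FreeGroup.mk [(i, true)]) (fun i => FreeGroup.mk [(i, false)]) b c)^[p] φ) ≤
      ENNReal.ofReal (((2 * r) ^ (2 * p)) ^ 2) * N φ := by
  induction p with
  | zero => intro φ; simp
  | succ p ih =>
    intro φ
    rw [Function.iterate_succ_apply]
    refine (ih _).trans ?_
    have h1 := haagF true b r b1 b2 φ
    have h2 := haagF false c r c1 c2 (Op (fun i => FreeGroup.mk [(i, true)]) b φ)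
    have e : ((2 * r) ^ (2 * (p + 1))) ^ 2 =
        ((2 * r) ^ (2 * p)) ^ 2 * ((2 * r) ^ 2 * (2 * r) ^ 2) := by ring
    rw [e, ENNReal.ofReal_mul (by positivity), ENNReal.ofReal_mul (by positivity), mul_assoc,
      mul_assoc]
    refine mul_le_mul_right ?_ _
    refine h2.trans ?_
    exact mul_le_mul_right h1 _

theorem adj_formula {ι K Q : Type} [Fintype ι] [Fintype K] [Group Q] [Fintype Q]
    [DecidableEq K] [DecidableEq Q] (q : ι → Q) (a : ι → K → K → ℂ)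
    (S : EuclideanSpace ℂ (Q × K) →L[ℂ] EuclideanSpace ℂ (Q × K))
    (hS : ∀ φ x k, S φ (x, k) = ∑ i, ∑ l, a i k l * φ ((q i)⁻¹ * x, l))
    (ψ : EuclideanSpace ℂ (Q × K)) (x : Q) (l : K) :
    ContinuousLinearMap.adjoint S ψ (x, l) =
      ∑ i, ∑ k, conj (a i k l) * ψ (((q i)⁻¹)⁻¹ * x, k) := by
  have h1 := ContinuousLinearMap.adjoint_inner_right S
    (EuclideanSpace.single (x, l) (1 : ℂ)) ψ
  rw [EuclideanSpace.inner_single_left, map_one, one_mul] at h1
  rw [h1, PiLp.inner_apply, Fintype.sum_prod_type]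
  have h2 : ∀ z k, S (EuclideanSpace.single (x, l) (1 : ℂ)) (z, k) =
      ∑ i, if (q i)⁻¹ * z = x then a i k l else 0 := by
    intro z k
    rw [hS]
    refine Finset.sum_congr rfl fun i _ => ?_
    rw [Finset.sum_eq_single l]
    · by_cases hz : (q i)⁻¹ * z = x <;> simp [hz, EuclideanSpace.single_apply]
    · intro l' _ hl'
      simp [EuclideanSpace.single_apply, hl']
    · intro h; exact absurd (Finset.mem_univ l) h
  have h3 : ∀ z k, inner ℂ (S (EuclideanSpace.single (x, l) (1 : ℂ)) (z, k)) (ψ (z, k)) =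
      ∑ i, if (q i)⁻¹ * z = x then conj (a i k l) * ψ (z, k) else 0 := by
    intro z k
    rw [RCLike.inner_apply, h2, map_sum, Finset.mul_sum]
    refine Finset.sum_congr rfl fun i _ => ?_
    by_cases hz : (q i)⁻¹ * z = x
    · simp [hz, mul_comm]
    · simp [hz]
  simp_rw [h3]
  have h4 : ∀ z, (∑ k, ∑ i, if (q i)⁻¹ * z = x then conj (a i k l) * ψ (z, k) else 0) =
      ∑ i, if (q i)⁻¹ * z = x then ∑ k, conj (a i k l) * ψ (z, k) else 0 := by
    intro z
    rw [Finset.sum_comm]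
    refine Finset.sum_congr rfl fun i _ => ?_
    by_cases hz : (q i)⁻¹ * z = x <;> simp [hz]
  simp_rw [h4]
  rw [Finset.sum_comm]
  refine Finset.sum_congr rfl fun i _ => ?_
  rw [Finset.sum_eq_single (q i * x)]
  · simp
  · intro z _ hz
    rw [if_neg]
    intro hc
    apply hz
    rw [← hc]; group
  · intro h; exact absurd (Finset.mem_univ _) h

theorem pow_fn {ι K Q : Type} [Fintype ι] [Fintype K] [Group Q] [Fintype Q]
    [DecidableEq K] [DecidableEq Q] (q : ι → Q) (a : ι → K → K → ℂ)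
    (S : EuclideanSpace ℂ (Q × K) →L[ℂ] EuclideanSpace ℂ (Q × K))
    (hS : ∀ φ x k, S φ (x, k) = ∑ i, ∑ l, a i k l * φ ((q i)⁻¹ * x, l)) (p : ℕ) :
    ∀ (φ : EuclideanSpace ℂ (Q × K)),
    (fun z => ((ContinuousLinearMap.adjoint S * S) ^ p) φ z) =
      (D q (fun i => (q i)⁻¹) a (fun i k l => conj (a i l k)))^[p] (fun z => φ z) := by
  induction p with
  | zero => intro φ; rfl
  | succ p ih =>
    intro φ
    rw [Function.iterate_succ_apply, pow_succ]
    have := ih ((ContinuousLinearMap.adjoint S * S) φ)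
    rw [ContinuousLinearMap.mul_apply, this]
    congr 1
    funext ⟨x, l⟩
    rw [ContinuousLinearMap.mul_apply, adj_formula q a S hS]
    simp only [D, Op]
    refine Finset.sum_congr rfl fun i _ => Finset.sum_congr rfl fun k _ => ?_
    rw [hS]

theorem moment : Pool.Agent.TH278.DX.MomentProp := by
  intro ι K Q _ _ _ _ _ _ _ q p hg a r hr hA hB S hS y
  obtain ⟨x0, l0⟩ := y
  -- the four matrix inequalities
  have a2 : ∀ v : ι → K → ℂ, ∑ k, ‖∑ i, ∑ l, a i k l * v i l‖ ^ 2 ≤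
      r ^ 2 * ∑ i, ∑ l, ‖v i l‖ ^ 2 := by
    intro v
    have := dual (X := ι × K) (fun x k => a x.1 k x.2) r
      (fun z => by rw [Fintype.sum_prod_type]; exact hA z) (fun x => v x.1 x.2)
    simpa only [Fintype.sum_prod_type] using this
  have c1 : ∀ z : K → ℂ, ∑ i, ∑ k, ‖∑ l, conj (a i l k) * z l‖ ^ 2 ≤ r ^ 2 * ∑ l, ‖z l‖ ^ 2 := by
    intro z
    have := hA fun k => conj (z k)
    simp only [RCLike.norm_conj] at this
    refine le_trans (le_of_eq ?_) this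
    refine Finset.sum_congr rfl fun i _ => Finset.sum_congr rfl fun k _ => ?_
    rw [← RCLike.norm_conj, map_sum]
    simp
  have c2 : ∀ v : ι → K → ℂ, ∑ k, ‖∑ i, ∑ l, conj (a i l k) * v i l‖ ^ 2 ≤
      r ^ 2 * ∑ i, ∑ l, ‖v i l‖ ^ 2 := by
    intro v
    have := dual (X := ι × K) (fun x l => a x.1 x.2 l) r
      (fun z => by rw [Fintype.sum_prod_type]; exact hB z) (fun x => conj (v x.1 x.2))
    simp only [Fintype.sum_prod_type, RCLike.norm_conj] at this
    refine le_trans (le_of_eq ?_) this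
    refine Finset.sum_congr rfl fun k _ => ?_
    rw [← RCLike.norm_conj, map_sum]
    simp
  rw [EuclideanSpace.inner_single_right, one_mul]
  refine (Complex.re_le_norm _).trans ?_
  rw [RCLike.norm_conj]
  have h1 := congrFun (pow_fn q a S hS p (EuclideanSpace.single (x0, l0) 1)) (x0, l0)
  simp only at h1
  rw [h1]
  set δ : Q × K → ℂ := fun z => (EuclideanSpace.single (x0, l0) (1 : ℂ) :
    EuclideanSpace ℂ (Q × K)) z with hδ
  set δF : FreeGroup ι × K → ℂ := fun w => if w = (1, l0) then 1 else 0 with hδF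
  have h2 : (D q (fun i => (q i)⁻¹) a (fun i k l => conj (a i l k)))^[p] δ (x0, l0) =
      T q x0 ((D q (fun i => (q i)⁻¹) a (fun i k l => conj (a i l k)))^[p] δ) (1, l0) := by
    simp [T]
  rw [h2, T_D]
  rw [local_D a (fun i k l => conj (a i l k)) p 0 (T q x0 δ) δF ?_ 1 l0 (by simp)]
  · have h3 := N_D a (fun i k l => conj (a i l k)) r hB a2 c1 c2 p δF
    have h4 : N δF ≤ 1 := by
      rw [N, tsum_eq_single (1 : FreeGroup ι)]
      · rw [Finset.sum_eq_single l0]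
        · simp [hδF]
        · intro k _ hk
          simp [hδF, hk]
        · intro h; exact absurd (Finset.mem_univ _) h
      · intro w hw
        simp [hδF, hw]
    set Φ := (D (fun i => FreeGroup.mk [(i, true)]) (fun i => FreeGroup.mk [(i, false)]) a
      (fun i k l => conj (a i l k)))^[p] δF with hΦ
    have h5 : ENNReal.ofReal (‖Φ (1, l0)‖ ^ 2) ≤ N Φ := by
      refine le_trans ?_ (ENNReal.le_tsum (1 : FreeGroup ι))
      exact ENNReal.ofReal_le_ofReal (Finset.single_le_sum (f := fun k => ‖Φ (1, k)‖ ^ 2)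
        (fun _ _ => by positivity) (Finset.mem_univ l0))
    have h6 : ENNReal.ofReal (‖Φ (1, l0)‖ ^ 2) ≤ ENNReal.ofReal (((2 * r) ^ (2 * p)) ^ 2) := by
      refine h5.trans (h3.trans ?_)
      calc _ ≤ ENNReal.ofReal (((2 * r) ^ (2 * p)) ^ 2) * 1 := mul_le_mul_right h4 _
        _ = _ := mul_one _
    rw [ENNReal.ofReal_le_ofReal_iff (by positivity)] at h6
    exact le_of_sq_le_sq h6 (by positivity)
  · intro w k hw
    simp only [T, hδ, hδF, EuclideanSpace.single_apply]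
    by_cases hw1 : w = 1
    · subst hw1
      simp
    · have h7 := hg w hw1 (by simpa using hw)
      rw [if_neg, if_neg]
      · intro hc; exact hw1 (congrArg Prod.fst hc)
      · intro hc
        have := congrArg Prod.fst hc
        simp only at this
        exact h7 (by simpa using this)

end Pool.Agent.TH341.J5172
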